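import Pool.Agent.H752.SV.Stubs

/-!
# Task V5: the checks are correct
-/

set_option autoImplicit false

namespace Pool.Agent.H752.SV

open Pool.Agent.NPC Pool.Agent.H620R2.Gauge

namespace V5

lemma dg_ne {q n j : ℕ} (h : dg q n j ≠ 0) : q ^ j ≤ n := by
  by_contra h1
  apply h
  unfold dg
  rw [Nat.div_eq_of_lt (not_le.mp h1), Nat.zero_mod]

lemma lt_size {q n j : ℕ} (hq : 2 ≤ q) (h : dg q n j ≠ 0) : j < n.size :=
  Nat.lt_size.mpr ((Nat.pow_le_pow_left hq j).trans (dg_ne h))

lemma lt_lam (q : ℕ) (p : Polynomial ℕ) (r i : ℕ) : i < lam q p r i := by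
  unfold lam
  omega

lemma lamS_eq {q : ℕ} {p : Polynomial ℕ} {r : ℕ} {x : List Bool} {i : ℕ}
    (h : i < x.length.size) : lamS q p r x i = lam q p r i := by
  unfold lamS
  rw [min_eq_left h.le]

lemma all_id_iff (x : List Bool) : x.all id = true ↔ ∃ n, x = List.replicate n true := by
  rw [List.all_eq_true]
  constructor
  · intro h
    exact ⟨x.length, List.eq_replicate_iff.mpr ⟨rfl, fun b hb => h b hb⟩⟩
  · rintro ⟨n, rfl⟩ b hb
    exact List.eq_of_mem_replicate hb

variable {q : ℕ} {p : Polynomial ℕ} {r : ℕ} {V : List Bool → List Bool} {L : Set (List Bool)}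

lemma kb_iff (h4 : St_tab) (hq : 2 ≤ q)
    (hL : ∀ x, x ∈ L ↔ ∃ w : List Bool, w.length ≤ p.eval x.length ∧ V (pairBits w x) = [true])
    {x : List Bool} {i : ℕ} (hi : q ^ lam q p r i ≤ x.length) :
    kb q p r x (tab V x) i = true ↔ i ∈ KK q r L := by
  have h1 := h4 q hq p r V L hL x i hi
  have h2 : i ∈ KK q r L ↔ (i ∈ NL q L ∧ i % 2 ≠ r) := Iff.rfl
  rw [h2]
  unfold kb
  rw [Bool.and_eq_true, h1]
  simp

end V5

open V5 in
theorem t_chk (h4 : St_tab) : St_chk := by
  intro q hq p r V L hL x
  refine ⟨fun N => ?_, ?_⟩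
  · have h0 : x ∈ LZ q p r L N ↔ ∃ n, x = List.replicate n true ∧
      ∀ j, dg q n j ≠ 0 → ∃ i ∈ KK q r L, N ≤ i ∧ lam q p r i = j := Iff.rfl
    rw [h0]
    unfold chkZ
    simp only [Bool.and_eq_true, List.all_eq_true, Bool.or_eq_true, decide_eq_true_eq,
      List.any_eq_true, List.mem_range]
    rw [← List.all_eq_true, all_id_iff]
    constructor
    · rintro ⟨⟨n, rfl⟩, h⟩
      refine ⟨n, rfl, fun j hj => ?_⟩
      rw [List.length_replicate] at h
      have hjs : j < n.size := lt_size hq hj
      rcases h j hjs with h1 | ⟨i, hi, ⟨h2, h3⟩, h5⟩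
      · exact absurd h1 hj
      · rw [lamS_eq (by rw [List.length_replicate]; omega)] at h5
        refine ⟨i, ?_, h3, h5⟩
        refine (kb_iff h4 hq hL ?_).mp h2
        rw [h5, List.length_replicate]
        exact dg_ne hj
    · rintro ⟨n, rfl, h⟩
      refine ⟨⟨n, rfl⟩, fun j _ => ?_⟩
      rw [List.length_replicate]
      by_cases hj : dg q n j = 0
      · exact Or.inl hj
      · right
        obtain ⟨i, hi, h1, h2⟩ := h j hj
        have hjs : j < n.size := lt_size hq hj
        have hij : i < j := by rw [← h2]; exact lt_lam q p r i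
        refine ⟨i, hij, ⟨?_, h1⟩, ?_⟩
        · refine (kb_iff h4 hq hL ?_).mpr hi
          rw [h2, List.length_replicate]
          exact dg_ne hj
        · rw [lamS_eq (by rw [List.length_replicate]; omega), h2]
  · have h0 : x ∈ LW0 q p r L ↔ ∃ n, x = List.replicate n true ∧ ∀ j, dg q n j ≠ 0 →
      (j ∈ KK q r L ∧ dg q n (lam q p r j) = dg q n j) ∨
        ∃ i ∈ KK q r L, lam q p r i = j ∧ dg q n i = dg q n j := Iff.rfl
    rw [h0]
    unfold chkW
    simp only [Bool.and_eq_true, List.all_eq_true, Bool.or_eq_true, decide_eq_true_eq,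
      List.any_eq_true, List.mem_range]
    rw [← List.all_eq_true, all_id_iff]
    constructor
    · rintro ⟨⟨n, rfl⟩, h⟩
      refine ⟨n, rfl, fun j hj => ?_⟩
      rw [List.length_replicate] at h
      have hjs : j < n.size := lt_size hq hj
      rcases h j hjs with (h1 | ⟨h2, h3⟩) | ⟨i, hi, ⟨h2, h3⟩, h5⟩
      · exact absurd h1 hj
      · left
        rw [lamS_eq (by rw [List.length_replicate]; omega)] at h3
        refine ⟨(kb_iff h4 hq hL ?_).mp h2, h3⟩
        rw [List.length_replicate]
        apply dg_ne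
        rw [h3]
        exact hj
      · right
        rw [lamS_eq (by rw [List.length_replicate]; omega)] at h3
        refine ⟨i, (kb_iff h4 hq hL ?_).mp h2, h3, h5⟩
        rw [h3, List.length_replicate]
        exact dg_ne hj
    · rintro ⟨n, rfl, h⟩
      refine ⟨⟨n, rfl⟩, fun j _ => ?_⟩
      rw [List.length_replicate]
      by_cases hj : dg q n j = 0
      · exact Or.inl (Or.inl hj)
      · have hjs : j < n.size := lt_size hq hj
        rcases h j hj with ⟨h1, h2⟩ | ⟨i, hi, h1, h2⟩
        · refine Or.inl (Or.inr ⟨?_, ?_⟩)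
          · refine (kb_iff h4 hq hL ?_).mpr h1
            rw [List.length_replicate]
            apply dg_ne
            rw [h2]
            exact hj
          · rw [lamS_eq (by rw [List.length_replicate]; omega), h2]
        · have hij : i < j := by rw [← h1]; exact lt_lam q p r i
          refine Or.inr ⟨i, hij, ⟨?_, ?_⟩, h2⟩
          · refine (kb_iff h4 hq hL ?_).mpr hi
            rw [h1, List.length_replicate]
            exact dg_ne hj
          · rw [lamS_eq (by rw [List.length_replicate]; omega), h1]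

end Pool.Agent.H752.SV
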